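import Pool.Agent.H73.LPC.Stmts

/-!
# Board LPC, row CNN (helper25): the figures are open and connected
-/

set_option autoImplicit false

open Set Filter Topology MeasureTheory Metric

namespace Pool.LPC

open Pool.PHS

theorem CNN_thm : CNNStmt := by
  intro δ hδ hδ1
  have hn1 : Continuous fun p : ℂ × ℂ => ‖p.1‖ := continuous_fst.norm
  have hn2 : Continuous fun p : ℂ × ℂ => ‖p.2‖ := continuous_snd.norm
  have hBeq : BD δ = ball (0 : ℂ) (1 + δ) ×ˢ ball (0 : ℂ) (1 + δ) := by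
    ext p
    simp [BD]
  have hBc : Convex ℝ (BD δ) := by
    rw [hBeq]
    exact (convex_ball _ _).prod (convex_ball _ _)
  have hA : IsPreconnected (ball (0 : ℂ) (1 + δ) ×ˢ ball (0 : ℂ) δ) :=
    ((convex_ball (0 : ℂ) (1 + δ)).prod (convex_ball (0 : ℂ) δ)).isPreconnected
  have hAs : ball (0 : ℂ) (1 + δ) ×ˢ ball (0 : ℂ) δ ⊆ HF δ := by
    rintro ⟨z, w⟩ ⟨h1, h2⟩
    simp only [mem_ball_zero_iff] at h1 h2
    exact ⟨h1, by simpa using (by linarith : ‖w‖ < 1 + δ), Or.inl h2⟩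
  have h0A : ((0 : ℂ), (0 : ℂ)) ∈ ball (0 : ℂ) (1 + δ) ×ˢ ball (0 : ℂ) δ := by
    constructor
    · simp only [mem_ball_zero_iff, norm_zero]
      linarith
    · simp only [mem_ball_zero_iff, norm_zero]
      exact hδ
  refine ⟨?_, hBc.isPreconnected, ?_, ?_, ⟨(0, 0), hAs h0A⟩, fun p hp => ⟨hp.1, hp.2.1⟩⟩
  · exact (isOpen_lt hn1 continuous_const).inter (isOpen_lt hn2 continuous_const)
  · exact (isOpen_lt hn1 continuous_const).inter ((isOpen_lt hn2 continuous_const).inter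
      ((isOpen_lt hn2 continuous_const).union (isOpen_lt continuous_const hn1)))
  · refine isPreconnected_of_forall ((0 : ℂ), (0 : ℂ)) ?_
    rintro ⟨z, w⟩ hy
    rcases hy.2.2 with h | h
    · refine ⟨_, hAs, h0A, ⟨?_, ?_⟩, hA⟩
      · simpa using hy.1
      · simpa using h
    · refine ⟨(ball (0 : ℂ) (1 + δ) ×ˢ ball (0 : ℂ) δ) ∪ ({z} ×ˢ ball (0 : ℂ) (1 + δ)), ?_,
        Or.inl h0A, Or.inr ⟨rfl, ?_⟩, ?_⟩
      · refine union_subset hAs ?_
        rintro ⟨z', w'⟩ ⟨h1, h2⟩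
        rw [mem_singleton_iff] at h1
        simp only at h1
        subst h1
        simp only [mem_ball_zero_iff] at h2
        exact ⟨hy.1, h2, Or.inr h⟩
      · simpa using hy.2.1
      · refine IsPreconnected.union (z, (0 : ℂ)) ⟨?_, ?_⟩ ⟨rfl, ?_⟩ hA ?_
        · simpa using hy.1
        · simpa using hδ
        · simp only [mem_ball_zero_iff, norm_zero]
          linarith
        · exact isPreconnected_singleton.prod (convex_ball (0 : ℂ) (1 + δ)).isPreconnected

end Pool.LPC
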